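import Mathlib

/-! Project EN, package CFQ: elementary estimates. -/

set_option autoImplicit false

namespace Pool.Agent.P8H69.EN

open Finset MeasureTheory Filter Topology Complex

lemma exp_neg_taylor (n : ℕ) : ∀ x : ℝ, 0 ≤ x →
    |Real.exp (-x) - ∑ k ∈ range n, (-x) ^ k / (k.factorial : ℝ)| ≤ x ^ n / (n.factorial : ℝ) := by
  induction n with
  | zero =>
    intro x hx
    simp only [range_zero, sum_empty, sub_zero, pow_zero, Nat.factorial_zero, Nat.cast_one, div_one]
    rw [abs_of_pos (Real.exp_pos _)]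
    exact Real.exp_le_one_iff.2 (by linarith)
  | succ n ih =>
    intro x hx
    set f : ℝ → ℝ := fun y => Real.exp (-y) - ∑ k ∈ range (n + 1), (-y) ^ k / (k.factorial : ℝ) with hf
    set f' : ℝ → ℝ := fun y => -(Real.exp (-y) - ∑ k ∈ range n, (-y) ^ k / (k.factorial : ℝ)) with hf'
    have hd : ∀ y, HasDerivAt f (f' y) y := by
      intro y
      have h1 : HasDerivAt (fun y : ℝ => Real.exp (-y)) (-Real.exp (-y)) y := by
        have := (hasDerivAt_neg y).exp
        simpa using this
      have h2 : ∀ k : ℕ, HasDerivAt (fun y : ℝ => (-y) ^ (k + 1) / ((k + 1).factorial : ℝ))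
          (-((-y) ^ k / (k.factorial : ℝ))) y := by
        intro k
        refine (((hasDerivAt_neg y).fun_pow (k + 1)).div_const ((k + 1).factorial : ℝ)).congr_deriv ?_
        rw [Nat.factorial_succ, Nat.add_sub_cancel]
        push_cast
        have : ((k : ℝ) + 1) ≠ 0 := by positivity
        have h4 : (k.factorial : ℝ) ≠ 0 := by positivity
        field_simp
      have h5 : HasDerivAt (fun y : ℝ => ∑ k ∈ range (n + 1), (-y) ^ k / (k.factorial : ℝ))
          (-∑ k ∈ range n, (-y) ^ k / (k.factorial : ℝ)) y := by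
        have h6 : (fun y : ℝ => ∑ k ∈ range (n + 1), (-y) ^ k / (k.factorial : ℝ)) =
            fun y : ℝ => (∑ k ∈ range n, (-y) ^ (k + 1) / ((k + 1).factorial : ℝ)) + 1 := by
          funext y
          rw [sum_range_succ']
          simp
        rw [h6, ← sum_neg_distrib]
        exact (HasDerivAt.fun_sum fun k _ => h2 k).add_const 1
      exact (h1.fun_sub h5).congr_deriv (by simp only [hf']; ring)
    have hB : ∀ y : ℝ, HasDerivAt (fun y : ℝ => y ^ (n + 1) / ((n + 1).factorial : ℝ))
        (y ^ n / (n.factorial : ℝ)) y := by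
      intro y
      refine (((hasDerivAt_id' y).fun_pow (n + 1)).div_const ((n + 1).factorial : ℝ)).congr_deriv ?_
      rw [Nat.factorial_succ, Nat.add_sub_cancel]
      push_cast
      have : ((n : ℝ) + 1) ≠ 0 := by positivity
      have h4 : (n.factorial : ℝ) ≠ 0 := by positivity
      field_simp
    have := image_norm_le_of_norm_deriv_right_le_deriv_boundary (f := f) (a := 0) (b := x) (f' := f')
      (fun y _ => (hd y).continuousAt.continuousWithinAt) (fun y _ => (hd y).hasDerivWithinAt)
      (B := fun y => y ^ (n + 1) / ((n + 1).factorial : ℝ)) (B' := fun y => y ^ n / (n.factorial : ℝ))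
      (by
        simp only [hf]
        rw [sum_range_succ']
        simp) hB
      (by
        intro y hy
        simp only [hf', norm_neg, Real.norm_eq_abs]
        exact ih y hy.1) (x := x) ⟨hx, le_refl _⟩
    simpa [hf, Real.norm_eq_abs] using this

lemma pow_self_le (n : ℕ) : (n : ℝ) ^ n ≤ 4 ^ n * n.factorial := by
  have h1 := Real.pow_div_factorial_le_exp (n : ℝ) (Nat.cast_nonneg n) n
  rw [div_le_iff₀ (by positivity)] at h1
  have h2 : Real.exp (n : ℝ) ≤ 4 ^ n := by
    have : Real.exp (n : ℝ) = Real.exp 1 ^ n := by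
      rw [← Real.exp_nat_mul, mul_one]
    rw [this]
    exact pow_le_pow_left₀ (Real.exp_pos _).le (by linarith [Real.exp_one_lt_d9]) n
  calc (n : ℝ) ^ n ≤ Real.exp n * n.factorial := h1
    _ ≤ _ := by gcongr

/-- `(V/4)^n / n! ≤ (V/n)^n` -/
lemma quarter_le (V : ℝ) (hV : 0 ≤ V) (n : ℕ) (hn : 1 ≤ n) :
    (V / 4) ^ n / (n.factorial : ℝ) ≤ (V / n) ^ n := by
  have h1 := pow_self_le n
  have hn0 : (0 : ℝ) < n := by exact_mod_cast hn
  rw [div_pow, div_pow, div_div, div_le_div_iff₀ (by positivity) (by positivity)]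
  exact mul_le_mul_of_nonneg_left h1 (by positivity)

/-- `n! V^n / (2n)! ≤ (V/n)^n` -/
lemma rem_le (V : ℝ) (hV : 0 ≤ V) (n : ℕ) (hn : 1 ≤ n) :
    (n.factorial : ℝ) * V ^ n / ((2 * n).factorial : ℝ) ≤ (V / n) ^ n := by
  have h1 : (n.factorial : ℝ) * (n : ℝ) ^ n ≤ ((2 * n).factorial : ℝ) := by
    have h2 := Nat.factorial_mul_pow_le_factorial (m := n) (n := n)
    rw [← two_mul] at h2
    have h3 : (n.factorial : ℝ) * ((n : ℝ) + 1) ^ n ≤ ((2 * n).factorial : ℝ) := by
      exact_mod_cast h2
    refine le_trans ?_ h3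
    gcongr
    linarith
  have hn0 : (0 : ℝ) < n := by exact_mod_cast hn
  rw [div_pow, div_le_div_iff₀ (by positivity) (by positivity)]
  have h4 : 0 ≤ V ^ n := by positivity
  nlinarith [mul_le_mul_of_nonneg_right h1 h4]

/-- the sum of the errors of the moments -/
lemma err_sum (V : ℝ) (hV : 0 ≤ V) (m : ℕ) :
    (1 / 2 : ℝ) ^ m / (m.factorial : ℝ) * ∑ j ∈ range (m + 1), (m.choose j : ℝ) *
      (Real.sqrt (j.factorial * V ^ j) * Real.sqrt ((m - j).factorial * V ^ (m - j))) ≤
    1 + V ^ m / (m.factorial : ℝ) := by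
  have h1 : ∀ j ∈ range (m + 1), (m.choose j : ℝ) *
      (Real.sqrt (j.factorial * V ^ j) * Real.sqrt ((m - j).factorial * V ^ (m - j))) ≤
      (m.choose j : ℝ) * Real.sqrt (m.factorial * V ^ m) := by
    intro j hj
    have hj' : j ≤ m := by rw [mem_range] at hj; omega
    refine mul_le_mul_of_nonneg_left ?_ (Nat.cast_nonneg _)
    rw [← Real.sqrt_mul (by positivity)]
    apply Real.sqrt_le_sqrt
    have h2 : V ^ m = V ^ j * V ^ (m - j) := by rw [← pow_add]; congr 1; omega
    have h3 : (j.factorial : ℝ) * ((m - j).factorial : ℝ) ≤ m.factorial := by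
      have := Nat.le_of_dvd (Nat.factorial_pos m) (Nat.factorial_mul_factorial_dvd_factorial hj')
      exact_mod_cast this
    rw [h2]
    calc (j.factorial : ℝ) * V ^ j * ((m - j).factorial * V ^ (m - j)) =
        ((j.factorial : ℝ) * ((m - j).factorial : ℝ)) * (V ^ j * V ^ (m - j)) := by ring
      _ ≤ _ := mul_le_mul_of_nonneg_right h3 (by positivity)
  have h4 : ∑ j ∈ range (m + 1), (m.choose j : ℝ) = 2 ^ m := by
    exact_mod_cast Nat.sum_range_choose m
  have hm0 : (0 : ℝ) < m.factorial := by positivity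
  have h5 : Real.sqrt (m.factorial * V ^ m) / m.factorial ≤ 1 + V ^ m / m.factorial := by
    rw [div_le_iff₀ hm0]
    apply Real.sqrt_le_iff.2
    constructor
    · positivity
    · have e : (1 + V ^ m / (m.factorial : ℝ)) * m.factorial = m.factorial + V ^ m := by
        field_simp
      rw [e]
      have : 0 ≤ V ^ m := by positivity
      nlinarith [mul_nonneg hm0.le this, sq_nonneg (V ^ m), sq_nonneg (m.factorial : ℝ)]
  calc _ ≤ (1 / 2 : ℝ) ^ m / (m.factorial : ℝ) * ∑ j ∈ range (m + 1),
        (m.choose j : ℝ) * Real.sqrt (m.factorial * V ^ m) :=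
        mul_le_mul_of_nonneg_left (sum_le_sum h1) (by positivity)
    _ = Real.sqrt (m.factorial * V ^ m) / m.factorial := by
        rw [← sum_mul, h4]
        have : (1 / 2 : ℝ) ^ m * 2 ^ m = 1 := by rw [← mul_pow]; norm_num
        calc _ = ((1 / 2 : ℝ) ^ m * 2 ^ m) * Real.sqrt (m.factorial * V ^ m) / m.factorial := by ring
          _ = _ := by rw [this, one_mul]
    _ ≤ _ := h5

/-- the diagonal terms -/
lemma main_sum (s : ℕ → ℝ) (n : ℕ) :
    ∑ m ∈ range (2 * n), (I / 2) ^ m / (m.factorial : ℂ) * ∑ j ∈ range (m + 1), (m.choose j : ℂ) *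
      (if j = m - j then (s j : ℂ) else 0) =
    ((∑ k ∈ range n, (-1 / 4) ^ k * s k / (k.factorial : ℝ) ^ 2 : ℝ) : ℂ) := by
  induction n with
  | zero => simp
  | succ n ih =>
    rw [show 2 * (n + 1) = 2 * n + 1 + 1 by ring, sum_range_succ, sum_range_succ, ih,
      sum_range_succ (fun k => (-1 / 4 : ℝ) ^ k * s k / (k.factorial : ℝ) ^ 2) n]
    have h1 : ∑ j ∈ range (2 * n + 1 + 1), ((2 * n + 1).choose j : ℂ) *
        (if j = 2 * n + 1 - j then (s j : ℂ) else 0) = 0 := by
      refine sum_eq_zero fun j _ => ?_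
      rw [if_neg (by omega), mul_zero]
    have h2 : ∑ j ∈ range (2 * n + 1), ((2 * n).choose j : ℂ) *
        (if j = 2 * n - j then (s j : ℂ) else 0) = ((2 * n).choose n : ℂ) * s n := by
      rw [sum_eq_single n]
      · rw [if_pos (by omega)]
      · intro j _ hj
        rw [if_neg (by omega), mul_zero]
      · intro h
        exact absurd (mem_range.2 (by omega)) h
    rw [h1, h2, mul_zero, add_zero]
    push_cast
    congr 1
    have h3 : (((2 * n).choose n : ℕ) : ℂ) * (n.factorial : ℂ) ^ 2 = ((2 * n).factorial : ℂ) := by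
      have := Nat.choose_mul_factorial_mul_factorial (n := 2 * n) (k := n) (by omega)
      rw [show 2 * n - n = n by omega] at this
      rw [← this]
      push_cast
      ring
    have h4 : (n.factorial : ℂ) ≠ 0 := by exact_mod_cast (Nat.factorial_pos n).ne'
    have h5 : ((2 * n).factorial : ℂ) ≠ 0 := by exact_mod_cast (Nat.factorial_pos (2 * n)).ne'
    have h6 : (I / 2) ^ (2 * n) = (-1 / 4 : ℂ) ^ n := by
      rw [pow_mul, div_pow, I_sq]
      norm_num
    rw [h6, ← h3]
    have h7 : (((2 * n).choose n : ℕ) : ℂ) ≠ 0 := by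
      exact_mod_cast (Nat.choose_pos (by omega : n ≤ 2 * n)).ne'
    field_simp

/-- comparison of the main terms -/
lemma cmp_sum (V M : ℝ) (hV : 0 ≤ V) (hM : 0 ≤ M) (s : ℕ → ℝ)
    (hs1 : ∀ k, s k ≤ k.factorial * V ^ k)
    (hs2 : ∀ k : ℕ, k.factorial * (V ^ k - k * (k - 1) / 2 * M * V ^ (k - 1)) ≤ s k) (n : ℕ)
    (hn : 1 ≤ n) :
    |(∑ k ∈ range n, (-1 / 4) ^ k * s k / (k.factorial : ℝ) ^ 2) - Real.exp (-V / 4)| ≤
      M * Real.exp V + (V / n) ^ n := by
  have h1 : |(∑ k ∈ range n, (-1 / 4) ^ k * s k / (k.factorial : ℝ) ^ 2) -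
      ∑ k ∈ range n, (-(V / 4)) ^ k / (k.factorial : ℝ)| ≤ M * Real.exp V := by
    rw [← sum_sub_distrib]
    refine (abs_sum_le_sum_abs _ _).trans ?_
    have h2 : ∀ k ∈ range n, |(-1 / 4) ^ k * s k / (k.factorial : ℝ) ^ 2 -
        (-(V / 4)) ^ k / (k.factorial : ℝ)| ≤
        (if k = 0 then 0 else M * (V ^ (k - 1) / ((k - 1).factorial : ℝ))) := by
      intro k _
      have hk0 : (0 : ℝ) < k.factorial := by positivity
      have e : (-1 / 4) ^ k * s k / (k.factorial : ℝ) ^ 2 - (-(V / 4)) ^ k / (k.factorial : ℝ) =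
          (-1 / 4) ^ k * ((s k - k.factorial * V ^ k) / (k.factorial : ℝ) ^ 2) := by
        have : (-(V / 4)) ^ k = (-1 / 4 : ℝ) ^ k * V ^ k := by rw [← mul_pow]; congr 1; ring
        rw [this]
        field_simp
      have e2 : |(-1 / 4 : ℝ) ^ k| = (1 / 4) ^ k := by
        rw [abs_pow]
        congr 1
        rw [abs_of_nonpos (by norm_num)]
        norm_num
      rw [e, abs_mul, e2, abs_div, abs_of_pos (by positivity : (0 : ℝ) < (k.factorial : ℝ) ^ 2)]
      have h3 : |s k - k.factorial * V ^ k| ≤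
          k.factorial * ((k : ℝ) * (k - 1) / 2 * M * V ^ (k - 1)) := by
        rw [abs_le]
        constructor
        · have := hs2 k
          nlinarith
        · have := hs1 k
          have h4 : 0 ≤ (k.factorial : ℝ) * ((k : ℝ) * (k - 1) / 2 * M * V ^ (k - 1)) := by
            rcases Nat.eq_zero_or_pos k with rfl | hk
            · simp
            · have : (1 : ℝ) ≤ k := by exact_mod_cast hk
              have : 0 ≤ (k : ℝ) - 1 := by linarith
              positivity
          linarith
      rcases Nat.eq_zero_or_pos k with rfl | hk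
      · simp at h3
        simp [h3]
      · obtain ⟨j, rfl⟩ : ∃ j, k = j + 1 := ⟨k - 1, by omega⟩
        rw [if_neg (by omega)]
        simp only [Nat.add_sub_cancel] at h3 ⊢
        have h5 : (0 : ℝ) < ((j + 1).factorial : ℝ) := by positivity
        have h6 : ((j + 1).factorial : ℝ) = ((j : ℝ) + 1) * (j.factorial : ℝ) := by
          rw [Nat.factorial_succ]; push_cast; ring
        have h7 : (0 : ℝ) < (j.factorial : ℝ) := by positivity
        have h8 : (j : ℝ) ≤ 4 ^ (j + 1) := by
          have : j < 4 ^ (j + 1) := lt_of_lt_of_le (Nat.lt_pow_self (by norm_num))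
            (Nat.pow_le_pow_right (by norm_num) (by omega))
          exact_mod_cast this.le
        calc (1 / 4 : ℝ) ^ (j + 1) * (|s (j + 1) - ((j + 1).factorial : ℝ) * V ^ (j + 1)| /
              ((j + 1).factorial : ℝ) ^ 2)
            ≤ (1 / 4 : ℝ) ^ (j + 1) * ((((j + 1).factorial : ℝ) *
              ((((j + 1 : ℕ) : ℝ)) * (((j + 1 : ℕ) : ℝ) - 1) / 2 * M * V ^ j)) /
              ((j + 1).factorial : ℝ) ^ 2) := by gcongr
          _ = (j : ℝ) / (2 * 4 ^ (j + 1)) * (M * (V ^ j / (j.factorial : ℝ))) := by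
              rw [h6, one_div_pow]
              push_cast
              have h9 : (0 : ℝ) < 4 ^ (j + 1) := by positivity
              generalize (4 : ℝ) ^ (j + 1) = w at h9 ⊢
              generalize (j.factorial : ℝ) = F at h7 ⊢
              have h10 : (0 : ℝ) < (j : ℝ) + 1 := by positivity
              field_simp
              ring
          _ ≤ 1 * (M * (V ^ j / (j.factorial : ℝ))) := by
              apply mul_le_mul_of_nonneg_right _ (by positivity)
              rw [div_le_one (by positivity)]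
              linarith [pow_pos (by norm_num : (0 : ℝ) < 4) (j + 1)]
          _ = _ := one_mul _
    refine (sum_le_sum h2).trans ?_
    obtain ⟨m, rfl⟩ : ∃ m, n = m + 1 := ⟨n - 1, by omega⟩
    rw [sum_range_succ']
    simp only [if_true, add_zero, Nat.add_sub_cancel]
    have : ∑ k ∈ range m, (if k + 1 = 0 then 0 else M * (V ^ k / (k.factorial : ℝ))) =
        M * ∑ k ∈ range m, V ^ k / (k.factorial : ℝ) := by
      rw [mul_sum]
      refine sum_congr rfl fun k _ => ?_
      rw [if_neg (by omega)]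
    rw [this]
    exact mul_le_mul_of_nonneg_left (Real.sum_le_exp_of_nonneg hV m) hM
  have h2 := exp_neg_taylor n (V / 4) (by positivity)
  have h3 := quarter_le V hV n hn
  have e : -(V / 4) = -V / 4 := by ring
  rw [abs_sub_comm] at h2
  have h4 := abs_sub_le (∑ k ∈ range n, (-1 / 4) ^ k * s k / (k.factorial : ℝ) ^ 2)
    (∑ k ∈ range n, (-(V / 4)) ^ k / (k.factorial : ℝ)) (Real.exp (-(V / 4)))
  rw [e] at h2 h4
  have e' : ∀ k : ℕ, (-(V / 4)) ^ k = (-V / 4) ^ k := fun k => by rw [e]
  simp only [e'] at h1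
  linarith

end Pool.Agent.P8H69.EN
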