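import Pool.Agent.P8H60.EN.Stm
import Pool.Agent.P8H67.LM.TW
import Pool.Agent.P8H69.EN.CfqA

/-! Project EN, package CFQ: the characteristic function of prime polynomials with a small error. -/

set_option autoImplicit false

namespace Pool.Agent.P8H69.EN

open Finset MeasureTheory Filter Topology Complex
open Pool.Agent.P8H60.LM (GC VC)
open Pool.Agent.Y743.CL (VS SS SS_le VS_nonneg)
open Pool.Agent.P8H67.LM (mom_bd GC_cont cc VC_eq)
open Pool.Agent.P8H60.EN

/-- the moments, normalised -/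
lemma mean_mom (z : ℕ → ℂ) (X : ℕ) (hX : 1 ≤ X) (T : ℝ) (hT : 1 ≤ T) (n k l : ℕ) (hkl : k + l ≤ 2 * n)
    (hXT : ((X ^ (2 * n) : ℕ) : ℝ) ≤ Real.sqrt T) :
    ‖((1 / T : ℝ) : ℂ) * (∫ t in T..(2 * T), GC z X t ^ k * (starRingEnd ℂ) (GC z X t) ^ l) -
      (if k = l then (SS (cc z) X k : ℂ) else 0)‖ ≤
      8 * (1 + Real.log T) / Real.sqrt T *
        (Real.sqrt (k.factorial * VS (cc z) X ^ k) * Real.sqrt (l.factorial * VS (cc z) X ^ l)) := by
  have hT0 : 0 < T := by linarith
  have h1 : ((X ^ (k + l) : ℕ) : ℝ) ≤ Real.sqrt T := by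
    refine le_trans ?_ hXT
    exact_mod_cast Nat.pow_le_pow_right hX hkl
  have h2 := mom_bd z X hX T T (2 * T) hT (by linarith) k l h1
  have hTC : ((T : ℝ) : ℂ) ≠ 0 := by exact_mod_cast hT0.ne'
  have e : ((1 / T : ℝ) : ℂ) * (∫ t in T..(2 * T), GC z X t ^ k * (starRingEnd ℂ) (GC z X t) ^ l) -
      (if k = l then (SS (cc z) X k : ℂ) else 0) = ((1 / T : ℝ) : ℂ) *
      ((∫ t in T..(2 * T), GC z X t ^ k * (starRingEnd ℂ) (GC z X t) ^ l) -
        ((2 * T - T : ℝ) : ℂ) * (if k = l then (SS (cc z) X k : ℂ) else 0)) := by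
    rw [mul_sub, ← mul_assoc]
    congr 1
    have : ((1 / T : ℝ) : ℂ) * ((2 * T - T : ℝ) : ℂ) = 1 := by
      rw [← Complex.ofReal_mul]
      have : 1 / T * (2 * T - T) = 1 := by field_simp; ring
      rw [this, Complex.ofReal_one]
    rw [this, one_mul]
  rw [e, norm_mul, Complex.norm_real, Real.norm_eq_abs, abs_of_pos (by positivity)]
  refine (mul_le_mul_of_nonneg_left h2 (by positivity)).trans (le_of_eq ?_)
  have h3 : Real.sqrt T * Real.sqrt T = T := Real.mul_self_sqrt hT0.le
  have h4 : 0 < Real.sqrt T := Real.sqrt_pos.2 hT0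
  have h5 : 1 / T * (8 * (Real.sqrt T * (1 + Real.log T))) = 8 * (1 + Real.log T) / Real.sqrt T := by
    rw [eq_div_iff h4.ne']
    calc 1 / T * (8 * (Real.sqrt T * (1 + Real.log T))) * Real.sqrt T =
        1 / T * (8 * ((Real.sqrt T * Real.sqrt T) * (1 + Real.log T))) := by ring
      _ = _ := by rw [h3]; field_simp
  rw [← mul_assoc, h5]

theorem t_CFQ : S_CFQA := by
  intro hTAY hSSB z X n T M hX hn hT hXT hM
  have hT0 : 0 < T := by linarith
  set V := VC z X with hV
  have hVe : V = VS (cc z) X := VC_eq z X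
  have hV0 : 0 ≤ V := by rw [hVe]; exact VS_nonneg _ _
  have hM0 : 0 ≤ M := (sq_nonneg _).trans (hM 0)
  have hGc : Continuous (GC z X) := GC_cont z X
  set e := 8 * (1 + Real.log T) / Real.sqrt T with he
  have he0 : 0 ≤ e := by
    have := Real.log_nonneg hT
    positivity
  set a : ℕ → ℕ → ℂ := fun k l => if k = l then (SS (cc z) X k : ℂ) else 0 with ha
  set mn : (ℝ → ℂ) → ℂ := fun f => ((1 / T : ℝ) : ℂ) * ∫ t in T..(2 * T), f t with hmn
  have hmom : ∀ k l : ℕ, k + l ≤ 2 * n →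
      ‖mn (fun t => GC z X t ^ k * (starRingEnd ℂ) (GC z X t) ^ l) - a k l‖ ≤
      e * (Real.sqrt (k.factorial * V ^ k) * Real.sqrt (l.factorial * V ^ l)) := by
    intro k l hkl
    rw [hVe]
    exact mean_mom z X hX T hT n k l hkl hXT
  -- the remainder
  have hconj : Continuous fun t => (starRingEnd ℂ) (GC z X t) := Complex.continuous_conj.comp hGc
  have hre : Continuous fun t => (GC z X t).re := Complex.continuous_re.comp hGc
  set P : ℝ → ℂ := fun t => ∑ m ∈ range (2 * n), (I * (((GC z X t).re : ℝ) : ℂ)) ^ m / (m.factorial : ℂ)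
    with hP
  have hPc : Continuous P := by
    simp only [hP]
    refine continuous_finsetSum _ fun m _ => ?_
    fun_prop
  have hGG : ∀ t, GC z X t ^ n * (starRingEnd ℂ) (GC z X t) ^ n = ((‖GC z X t‖ ^ (2 * n) : ℝ) : ℂ) := by
    intro t
    rw [← mul_pow, Complex.mul_conj, Complex.normSq_eq_norm_sq, pow_mul]
    push_cast
    rfl
  have hrem : ‖mn (fun t => cexp (I * (((GC z X t).re : ℝ) : ℂ))) - mn P‖ ≤
      (1 + e) * (V / n) ^ n := by
    have h1 : mn (fun t => cexp (I * (((GC z X t).re : ℝ) : ℂ))) - mn P =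
        ((1 / T : ℝ) : ℂ) * ∫ t in T..(2 * T), (cexp (I * (((GC z X t).re : ℝ) : ℂ)) - P t) := by
      simp only [hmn]
      rw [intervalIntegral.integral_sub (Continuous.intervalIntegrable (by fun_prop) _ _)
        (Continuous.intervalIntegrable hPc _ _), mul_sub]
    have h2 : ‖∫ t in T..(2 * T), (cexp (I * (((GC z X t).re : ℝ) : ℂ)) - P t)‖ ≤
        ∫ t in T..(2 * T), ‖GC z X t‖ ^ (2 * n) / ((2 * n).factorial : ℝ) := by
      refine intervalIntegral.norm_integral_le_of_norm_le (by linarith)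
        (Eventually.of_forall fun t _ => ?_)
        (Continuous.intervalIntegrable (by fun_prop) _ _)
      refine (hTAY (2 * n) (GC z X t).re).trans ?_
      have := Complex.abs_re_le_norm (GC z X t)
      gcongr
    have h3 : ∫ t in T..(2 * T), ‖GC z X t‖ ^ (2 * n) / ((2 * n).factorial : ℝ) =
        (∫ t in T..(2 * T), ‖GC z X t‖ ^ (2 * n)) / ((2 * n).factorial : ℝ) :=
      intervalIntegral.integral_div _ _
    have h4 : mn (fun t => GC z X t ^ n * (starRingEnd ℂ) (GC z X t) ^ n) =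
        ((1 / T * ∫ t in T..(2 * T), ‖GC z X t‖ ^ (2 * n) : ℝ) : ℂ) := by
      simp only [hmn, hGG]
      rw [intervalIntegral.integral_ofReal]
      push_cast
      rfl
    have h5 := hmom n n (by omega)
    rw [Real.mul_self_sqrt (by positivity), h4] at h5
    have h6 : a n n = ((SS (cc z) X n : ℝ) : ℂ) := by simp [ha]
    rw [h6, ← Complex.ofReal_sub, Complex.norm_real, Real.norm_eq_abs] at h5
    have h7 : 1 / T * ∫ t in T..(2 * T), ‖GC z X t‖ ^ (2 * n) ≤ (1 + e) * (n.factorial * V ^ n) := by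
      have h8 := SS_le (cc z) X n
      rw [← hVe] at h8
      have := (abs_le.1 h5).2
      linarith
    rw [h1, norm_mul, Complex.norm_real, Real.norm_eq_abs, abs_of_pos (by positivity)]
    calc 1 / T * ‖∫ t in T..(2 * T), (cexp (I * (((GC z X t).re : ℝ) : ℂ)) - P t)‖
        ≤ 1 / T * ((∫ t in T..(2 * T), ‖GC z X t‖ ^ (2 * n)) / ((2 * n).factorial : ℝ)) := by
          rw [← h3]
          gcongr
      _ = (1 / T * ∫ t in T..(2 * T), ‖GC z X t‖ ^ (2 * n)) / ((2 * n).factorial : ℝ) := by ring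
      _ ≤ (1 + e) * (n.factorial * V ^ n) / ((2 * n).factorial : ℝ) := by gcongr
      _ = (1 + e) * (n.factorial * V ^ n / ((2 * n).factorial : ℝ)) := by ring
      _ ≤ _ := mul_le_mul_of_nonneg_left (rem_le V hV0 n hn) (by linarith)
  -- the moments
  have hexp : ∀ (m : ℕ) (t : ℝ), (I * (((GC z X t).re : ℝ) : ℂ)) ^ m / (m.factorial : ℂ) =
      (I / 2) ^ m / (m.factorial : ℂ) * ∑ j ∈ range (m + 1), (m.choose j : ℂ) *
        (GC z X t ^ j * (starRingEnd ℂ) (GC z X t) ^ (m - j)) := by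
    intro m t
    have h1 : (((GC z X t).re : ℝ) : ℂ) = (GC z X t + (starRingEnd ℂ) (GC z X t)) / 2 :=
      Complex.re_eq_add_conj _
    rw [h1, show I * ((GC z X t + (starRingEnd ℂ) (GC z X t)) / 2) =
      I / 2 * (GC z X t + (starRingEnd ℂ) (GC z X t)) by ring, mul_pow, add_pow]
    rw [show ∀ x y w : ℂ, x * y / w = x / w * y from fun x y w => by ring]
    congr 1
    refine sum_congr rfl fun j _ => ?_
    ring
  have hmP : mn P = ∑ m ∈ range (2 * n), (I / 2) ^ m / (m.factorial : ℂ) *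
      ∑ j ∈ range (m + 1), (m.choose j : ℂ) *
        mn (fun t => GC z X t ^ j * (starRingEnd ℂ) (GC z X t) ^ (m - j)) := by
    simp only [hmn, hP, hexp]
    rw [intervalIntegral.integral_finsetSum
      (fun m _ => Continuous.intervalIntegrable (by fun_prop) _ _), mul_sum]
    refine sum_congr rfl fun m _ => ?_
    rw [intervalIntegral.integral_const_mul, intervalIntegral.integral_finsetSum
      (fun j _ => Continuous.intervalIntegrable (by fun_prop) _ _), mul_sum, mul_sum, mul_sum]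
    refine sum_congr rfl fun j _ => ?_
    rw [intervalIntegral.integral_const_mul]
    ring
  have hmain := main_sum (SS (cc z) X) n
  set Q : ℝ := ∑ k ∈ range n, (-1 / 4) ^ k * SS (cc z) X k / (k.factorial : ℝ) ^ 2 with hQ
  have hdiff : ‖mn P - (Q : ℂ)‖ ≤ e * (2 * n + Real.exp V) := by
    rw [hmP, ← hmain, ← sum_sub_distrib]
    refine (norm_sum_le _ _).trans ?_
    have h1 : ∀ m ∈ range (2 * n), ‖(I / 2) ^ m / (m.factorial : ℂ) *
        (∑ j ∈ range (m + 1), (m.choose j : ℂ) *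
          mn (fun t => GC z X t ^ j * (starRingEnd ℂ) (GC z X t) ^ (m - j))) -
        (I / 2) ^ m / (m.factorial : ℂ) * ∑ j ∈ range (m + 1), (m.choose j : ℂ) *
          (if j = m - j then (SS (cc z) X j : ℂ) else 0)‖ ≤
        e * (1 + V ^ m / (m.factorial : ℝ)) := by
      intro m hm
      have hm' : m < 2 * n := mem_range.1 hm
      rw [← mul_sub, ← sum_sub_distrib, norm_mul]
      have h2 : ‖(I / 2) ^ m / (m.factorial : ℂ)‖ = (1 / 2 : ℝ) ^ m / (m.factorial : ℝ) := by
        rw [norm_div, norm_pow, norm_div, Complex.norm_I, Complex.norm_natCast]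
        norm_num
      have h3 : ‖∑ j ∈ range (m + 1), ((m.choose j : ℂ) *
          mn (fun t => GC z X t ^ j * (starRingEnd ℂ) (GC z X t) ^ (m - j)) -
          (m.choose j : ℂ) * (if j = m - j then (SS (cc z) X j : ℂ) else 0))‖ ≤
          ∑ j ∈ range (m + 1), (m.choose j : ℝ) *
            (e * (Real.sqrt (j.factorial * V ^ j) * Real.sqrt ((m - j).factorial * V ^ (m - j)))) := by
        refine (norm_sum_le _ _).trans (sum_le_sum fun j hj => ?_)
        rw [← mul_sub, norm_mul, Complex.norm_natCast]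
        have hj' : j < m + 1 := mem_range.1 hj
        exact mul_le_mul_of_nonneg_left (hmom j (m - j) (by omega)) (Nat.cast_nonneg _)
      rw [h2]
      calc (1 / 2 : ℝ) ^ m / (m.factorial : ℝ) * _ ≤ (1 / 2 : ℝ) ^ m / (m.factorial : ℝ) *
            ∑ j ∈ range (m + 1), (m.choose j : ℝ) *
            (e * (Real.sqrt (j.factorial * V ^ j) * Real.sqrt ((m - j).factorial * V ^ (m - j)))) :=
            mul_le_mul_of_nonneg_left h3 (by positivity)
        _ = e * ((1 / 2 : ℝ) ^ m / (m.factorial : ℝ) * ∑ j ∈ range (m + 1), (m.choose j : ℝ) *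
            (Real.sqrt (j.factorial * V ^ j) * Real.sqrt ((m - j).factorial * V ^ (m - j)))) := by
            rw [mul_left_comm]
            congr 1
            rw [mul_sum]
            refine sum_congr rfl fun j _ => ?_
            ring
        _ ≤ _ := mul_le_mul_of_nonneg_left (err_sum V hV0 m) he0
    refine (sum_le_sum h1).trans ?_
    rw [← mul_sum, sum_add_distrib]
    refine mul_le_mul_of_nonneg_left ?_ he0
    have h4 := Real.sum_le_exp_of_nonneg hV0 (2 * n)
    simp only [sum_const, card_range, nsmul_eq_mul, mul_one]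
    push_cast
    linarith
  have hcmp : |Q - Real.exp (-V / 4)| ≤ M * Real.exp V + (V / n) ^ n := by
    refine cmp_sum V M hV0 hM0 (SS (cc z) X) (fun k => ?_) (fun k => ?_) n hn
    · rw [hVe]; exact SS_le _ _ _
    · rw [hVe]; exact hSSB (cc z) X M hM k
  have hfin : ‖mn (fun t => cexp (I * (((GC z X t).re : ℝ) : ℂ))) - ((Real.exp (-V / 4) : ℝ) : ℂ)‖ ≤
      (1 + e) * (V / n) ^ n + e * (2 * n + Real.exp V) + (M * Real.exp V + (V / n) ^ n) := by
    have h1 : ‖(Q : ℂ) - ((Real.exp (-V / 4) : ℝ) : ℂ)‖ ≤ M * Real.exp V + (V / n) ^ n := by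
      rw [← Complex.ofReal_sub, Complex.norm_real, Real.norm_eq_abs]
      exact hcmp
    have h2 : mn (fun t => cexp (I * (((GC z X t).re : ℝ) : ℂ))) - ((Real.exp (-V / 4) : ℝ) : ℂ) =
        (mn (fun t => cexp (I * (((GC z X t).re : ℝ) : ℂ))) - mn P) + (mn P - (Q : ℂ)) +
          ((Q : ℂ) - ((Real.exp (-V / 4) : ℝ) : ℂ)) := by ring
    rw [h2]
    refine (norm_add_le _ _).trans (add_le_add ((norm_add_le _ _).trans (add_le_add hrem hdiff)) h1)
  rw [Complex.ofReal_exp] at hfin
  have h0 : 0 ≤ (V / n) ^ n := by positivity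
  refine hfin.trans ?_
  nlinarith

end Pool.Agent.P8H69.EN
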