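import Pool.Agent.P8H69.EN.LowA

/-! Project EN, package LOW: the lower bound of the covariance. -/

set_option autoImplicit false

namespace Pool.Agent.P8H69.EN

open Finset MeasureTheory Filter Topology Complex
open Pool.Agent.P8H60.LM (GC VC)
open Pool.Agent.Y743.CL (rc XK)
open Pool.Agent.R321.QA (hs)
open Pool.Agent.TH850.UV (ggo ggo_low)
open Pool.Agent.P8H60.EN

lemma log_ceil_exp (Λ : ℝ) (h : 1 ≤ Λ) : Λ ≤ Real.log (⌈Real.exp Λ⌉₊ : ℕ) ∧
    Real.log (⌈Real.exp Λ⌉₊ : ℕ) ≤ 2 * Λ ∧ Λ + 1 ≤ (⌈Real.exp Λ⌉₊ : ℕ) := by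
  have h0 : Real.exp Λ ≤ (⌈Real.exp Λ⌉₊ : ℕ) := Nat.le_ceil _
  have h1 : ((⌈Real.exp Λ⌉₊ : ℕ) : ℝ) < Real.exp Λ + 1 := Nat.ceil_lt_add_one (Real.exp_pos _).le
  have h2 := Real.exp_pos Λ
  have h3 := Real.add_one_le_exp Λ
  have h4 : (0 : ℝ) < (⌈Real.exp Λ⌉₊ : ℕ) := by linarith
  refine ⟨?_, ?_, h3.trans h0⟩
  · rw [Real.le_log_iff_exp_le h4]
    exact h0
  · rw [Real.log_le_iff_le_exp h4, two_mul, Real.exp_add]
    nlinarith

lemma XK_log (T : ℝ) (n : ℕ) (hn : 1 ≤ n) (hT : 1 ≤ T) (h8 : 8 * (n : ℝ) ≤ Real.log T) :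
    Real.log T / (8 * n) ≤ Real.log (XK (1 / (4 * n)) T) ∧
    Real.log (XK (1 / (4 * n)) T) ≤ Real.log T / (4 * n) ∧ 1 ≤ XK (1 / (4 * n)) T := by
  have hT0 : 0 < T := by linarith
  have hn0 : (0 : ℝ) < n := by exact_mod_cast hn
  set κ : ℝ := 1 / (4 * n) with hκ
  have hκ0 : 0 < κ := by positivity
  have hlog : Real.log (T ^ κ) = Real.log T / (4 * n) := by
    rw [Real.log_rpow hT0, hκ]; ring
  have h1 : 1 ≤ T ^ κ := Real.one_le_rpow hT hκ0.le
  have hX1 : 1 ≤ XK κ T := by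
    unfold XK
    exact Nat.le_floor (by simpa using h1)
  have hX0 : (0 : ℝ) < XK κ T := by exact_mod_cast hX1
  have hXle : (XK κ T : ℝ) ≤ T ^ κ := Nat.floor_le (by positivity)
  have hXge : T ^ κ / 2 ≤ XK κ T := by
    have := Nat.lt_floor_add_one (T ^ κ)
    have h2 : (1 : ℝ) ≤ XK κ T := by exact_mod_cast hX1
    have h3 : ((XK κ T : ℕ) : ℝ) = (⌊T ^ κ⌋₊ : ℕ) := rfl
    linarith
  refine ⟨?_, ?_, hX1⟩
  · have h2 : Real.log (T ^ κ / 2) ≤ Real.log (XK κ T) := Real.log_le_log (by positivity) hXge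
    rw [Real.log_div (by positivity) (by norm_num), hlog] at h2
    have h3 := Real.log_two_lt_d9
    have h4 : 2 ≤ Real.log T / (4 * n) := by
      rw [le_div_iff₀ (by positivity)]
      linarith
    have h5 : Real.log T / (8 * n) = Real.log T / (4 * n) / 2 := by
      rw [div_div]
      congr 1
      ring
    rw [h5]
    linarith
  · rw [← hlog]
    exact Real.log_le_log hX0 hXle

lemma wL_sq (L : ℕ) (h : 0 < Real.log ((2 * L : ℕ) : ℝ)) :
    wL L ^ 2 = 2 * Real.pi ^ 2 / Real.log ((2 * L : ℕ) : ℝ) := by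
  unfold wL
  rw [mul_pow, div_pow, Real.sq_sqrt (by norm_num), Real.sq_sqrt h.le]
  ring

theorem core (lam σ δ c C A : ℝ) (hlam : 16 ≤ lam) (hδ0 : 0 < δ) (hδ : δ ≤ 1 / 4)
    (hσ : σ ^ 2 + δ ≤ (1 - δ) ^ 3) (hC : 0 ≤ C) (hA : 12 * lam / δ ≤ A) (hc12 : 12 * c ≤ δ)
    (hLS : ∀ (z X m : ℕ) (b y : Fin m → ℝ) (d D : ℝ), 3 ≤ z → z ≤ X → 0 < d →
      (∀ i k, i ≠ k → d ≤ |y i - y k|) → (∀ i k, |y i - y k| ≤ D) →
      (Real.log (Real.log X) - Real.log (Real.log z) - C - C * m * (1 / (d * Real.log z) +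
        D * (Real.log (Real.log X) - Real.log (Real.log z)) + 1 / Real.log z)) * ∑ i, b i ^ 2 ≤
      ∑ p ∈ (Finset.Ioc z X).filter Nat.Prime,
        (1 / p : ℝ) * ‖∑ i, (b i : ℂ) * cexp (-(I * ((y i * Real.log p : ℝ) : ℂ)))‖ ^ 2)
    (L : ℕ) (a b : ℝ) (ha2 : 2 ≤ a) (haA : 2 * A ≤ a) (hala : 48 * lam / δ ≤ a)
    (hlogL : Real.log L ≤ a) (hb : a ^ 16 ≤ b) (hL : a ^ 100 ≤ L) (hla : Real.log a = c * Real.log L)
    (hfin : Real.log (16 * A) + Real.log 2 + 4 * C ≤ δ * Real.log L)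
    (K n z0 : ℕ) (T : ℝ) (x : Fin K → ℝ) (hT : 1 ≤ T) (hLT : L * b ≤ Real.log T)
    (hK : (K : ℝ) ≤ a ^ 2) (hAn : A ≤ n) (hn : (n : ℝ) ≤ A * a ^ 4)
    (hz0 : Real.log z0 ≤ 2 * A * a ^ 4) (hx : ∀ i, (L : ℝ) ≤ 4 * x i ∧ x i ≤ 2 * L)
    (hsep : ∀ i k, i ≠ k → (L : ℝ) / a ^ 3 ≤ |x i - x k|) (u : Fin K → ℝ) :
    σ ^ 2 * ∑ i, u i ^ 2 ≤
      VC (zU (wL L) (Real.log T / lam) (fun i => hs (x i) T) u z0) (XK (1 / (4 * n)) T) / 2 := by
  have hpi := Real.pi_pos
  have hpi3 := Real.pi_gt_three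
  have ha0 : 0 < a := by linarith
  have ha1 : 1 ≤ a := by linarith
  have hpw : ∀ i j : ℕ, i ≤ j → a ^ i ≤ a ^ j := fun i j h => pow_le_pow_right₀ ha1 h
  have hlam0 : 0 < lam := by linarith
  have hA0 : 0 < A := lt_of_lt_of_le (by positivity) hA
  have hA48 : 192 ≤ A := by
    refine le_trans ?_ hA
    rw [le_div_iff₀ hδ0]
    linarith only [hδ, hlam]
  have hL0 : (0 : ℝ) < L := lt_of_lt_of_le (by positivity) hL
  have hL2 : (2 : ℝ) ≤ L := by
    refine le_trans ha2 (le_trans ?_ hL)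
    calc a = a ^ 1 := (pow_one a).symm
      _ ≤ a ^ 100 := hpw 1 100 (by norm_num)
  have hb0 : 0 < b := lt_of_lt_of_le (by positivity) hb
  have hb1 : 1 ≤ b := le_trans (one_le_pow₀ ha1) hb
  set τ := Real.log T with hτ
  have hτL : (L : ℝ) ≤ τ := (le_mul_of_one_le_right hL0.le hb1).trans hLT
  have hτ0 : 0 < τ := by linarith
  have hn0 : (0 : ℝ) < n := by linarith
  have hn1 : 1 ≤ n := by exact_mod_cast hn0
  -- the lower end
  set Λ := τ * a ^ 8 / L with hΛ
  have hΛ24 : a ^ 24 ≤ Λ := by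
    rw [hΛ, le_div_iff₀ hL0]
    calc a ^ 24 * L = L * a ^ 16 * a ^ 8 := by ring
      _ ≤ L * b * a ^ 8 := by gcongr
      _ ≤ τ * a ^ 8 := by gcongr
  have hΛ1 : 1 ≤ Λ := le_trans (one_le_pow₀ ha1) hΛ24
  have hΛ2 : 2 ≤ Λ := by
    refine le_trans ha2 (le_trans ?_ hΛ24)
    calc a = a ^ 1 := (pow_one a).symm
      _ ≤ a ^ 24 := hpw 1 24 (by norm_num)
  have haΛ : a ≤ Λ := by
    refine le_trans ?_ hΛ24
    calc a = a ^ 1 := (pow_one a).symm
      _ ≤ a ^ 24 := hpw 1 24 (by norm_num)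
  obtain ⟨hz1, hz2, hz3⟩ := log_ceil_exp Λ hΛ1
  set z : ℕ := ⌈Real.exp Λ⌉₊ with hz
  have hz3' : 3 ≤ z := by
    have : (3 : ℝ) ≤ z := by linarith
    exact_mod_cast this
  have hzpos : (0 : ℝ) < z := by linarith
  have hlz0 : 0 < Real.log z := by linarith
  -- the upper end
  have h8n : 8 * (n : ℝ) ≤ τ := by
    have h1 : 8 * (n : ℝ) ≤ a ^ 7 := by
      have h2 : (0 : ℝ) ≤ a ^ 4 := by positivity
      have h3 := mul_le_mul_of_nonneg_right haA h2
      calc 8 * (n : ℝ) ≤ 8 * (A * a ^ 4) := by linarith only [hn]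
        _ ≤ 4 * (a * a ^ 4) := by linarith only [h3]
        _ = 2 ^ 2 * a ^ 5 := by ring
        _ ≤ a ^ 2 * a ^ 5 := by gcongr
        _ = a ^ 7 := by ring
    linarith [hpw 7 100 (by norm_num)]
  obtain ⟨hX1, hX2, hX3⟩ := XK_log T n hn1 hT h8n
  rw [← hτ] at hX1 hX2
  set X := XK (1 / (4 * n)) T with hX
  have hzX' : 2 * Λ ≤ τ / (8 * n) := by
    rw [hΛ, le_div_iff₀ (by positivity)]
    have h1 : 16 * (n : ℝ) * a ^ 8 ≤ L := by
      have h2 : (0 : ℝ) ≤ a ^ 12 := by positivity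
      have h3 := mul_le_mul_of_nonneg_right haA h2
      calc 16 * (n : ℝ) * a ^ 8 ≤ 16 * (A * a ^ 4) * a ^ 8 := by gcongr
        _ = 8 * ((2 * A) * a ^ 12) := by ring
        _ ≤ 2 ^ 3 * (a * a ^ 12) := by norm_num; exact h3
        _ ≤ a ^ 3 * (a * a ^ 12) := by gcongr
        _ = a ^ 16 := by ring
        _ ≤ a ^ 100 := hpw _ _ (by norm_num)
        _ ≤ L := hL
    calc 2 * (τ * a ^ 8 / L) * (8 * n) = τ * (16 * (n : ℝ) * a ^ 8) / L := by ring
      _ ≤ τ * L / L := by gcongr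
      _ = τ := by field_simp
  have hlzX : Real.log z ≤ Real.log X := hz2.trans (hzX'.trans hX1)
  have hXpos : (0 : ℝ) < X := by exact_mod_cast hX3
  have hzX : z ≤ X := by
    have := (Real.log_le_log_iff hzpos hXpos).1 hlzX
    exact_mod_cast this
  have hlX0 : 0 < Real.log X := by linarith
  have hz0z : z0 ≤ z := by
    rcases Nat.eq_zero_or_pos z0 with h | h
    · omega
    · have h0 : (0 : ℝ) < z0 := by exact_mod_cast h
      have h1 : Real.log z0 ≤ Real.log z := by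
        refine hz0.trans (le_trans ?_ hz1)
        refine le_trans ?_ hΛ24
        calc 2 * A * a ^ 4 ≤ a * a ^ 4 := by gcongr
          _ = a ^ 5 := by ring
          _ ≤ a ^ 24 := hpw _ _ (by norm_num)
      have := (Real.log_le_log_iff h0 hzpos).1 h1
      exact_mod_cast this
  -- the large sieve factor
  set ℓ := Real.log (Real.log X) - Real.log (Real.log z) with hℓ
  have hℓ0 : 0 ≤ ℓ := by
    have := Real.log_le_log hlz0 hlzX
    linarith
  have hℓ1 : ℓ ≤ a := by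
    have h1 : Real.log X ≤ L * Real.log z := by
      have h2 : Real.log X ≤ τ := by
        refine hX2.trans ?_
        rw [div_le_iff₀ (by positivity)]
        have : (1 : ℝ) ≤ n := by exact_mod_cast hn1
        exact le_mul_of_one_le_right hτ0.le (by linarith only [this])
      have h3 : τ ≤ L * Λ := by
        have h4 : L * Λ = τ * a ^ 8 := by
          rw [hΛ]
          field_simp
        rw [h4]
        exact le_mul_of_one_le_right hτ0.le (one_le_pow₀ ha1)
      exact h2.trans (h3.trans (mul_le_mul_of_nonneg_left hz1 hL0.le))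
    have h2 := Real.log_le_log hlX0 h1
    rw [Real.log_mul hL0.ne' hlz0.ne'] at h2
    linarith
  have hℓ2 : Real.log L - Real.log (16 * A) - 12 * Real.log a ≤ ℓ := by
    have h1 : 2 * Λ * (L / (16 * A * a ^ 12)) ≤ Real.log X := by
      refine le_trans ?_ hX1
      rw [hΛ]
      calc 2 * (τ * a ^ 8 / L) * (L / (16 * A * a ^ 12)) = τ / (8 * (A * a ^ 4)) := by
            field_simp
            norm_num
        _ ≤ τ / (8 * n) := by gcongr
    have h2 : Real.log z * (L / (16 * A * a ^ 12)) ≤ Real.log X := by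
      refine le_trans ?_ h1
      gcongr
    have h3 := Real.log_le_log (by positivity) h2
    rw [Real.log_mul hlz0.ne' (by positivity), Real.log_div hL0.ne' (by positivity),
      Real.log_mul (by positivity) (by positivity), Real.log_pow] at h3
    push_cast at h3
    linarith
  have hlogL0 : 0 ≤ Real.log L := Real.log_nonneg (by linarith)
  set d := (L : ℝ) / a ^ 3 / τ with hd
  set D := 14 * (L : ℝ) / τ with hD
  have hd0 : 0 < d := by positivity
  set m : ℕ := K + 1 with hm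
  have hm2 : (m : ℝ) ≤ 2 * a ^ 2 := by
    rw [hm]
    push_cast
    have : 1 ≤ a ^ 2 := one_le_pow₀ ha1
    linarith only [this, hK]
  have hm0 : (0 : ℝ) ≤ m := Nat.cast_nonneg _
  have hF1 : m * (1 / (d * Real.log z)) ≤ 1 := by
    have h1 : a ^ 5 ≤ d * Real.log z := by
      calc a ^ 5 = d * Λ := by
            rw [hd, hΛ]
            field_simp
        _ ≤ _ := by gcongr
    rw [mul_one_div, div_le_one (by positivity)]
    calc (m : ℝ) ≤ 2 * a ^ 2 := hm2
      _ ≤ a * a ^ 2 := by gcongr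
      _ = a ^ 3 := by ring
      _ ≤ a ^ 5 := hpw _ _ (by norm_num)
      _ ≤ _ := h1
  have hF2 : m * (D * ℓ) ≤ 1 := by
    have h1 : D ≤ 14 / b := by
      rw [hD, div_le_div_iff₀ hτ0 hb0]
      linarith only [hLT]
    have hD0 : 0 ≤ D := by positivity
    calc m * (D * ℓ) ≤ (2 * a ^ 2) * (14 / b * a) := by gcongr
      _ = 28 * a ^ 3 / b := by ring
      _ ≤ 1 := by
          rw [div_le_one hb0]
          calc 28 * a ^ 3 ≤ 2 ^ 5 * a ^ 3 := by gcongr; norm_num
            _ ≤ a ^ 5 * a ^ 3 := by gcongr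
            _ = a ^ 8 := by ring
            _ ≤ a ^ 16 := hpw _ _ (by norm_num)
            _ ≤ b := hb
  have hF3 : m * (1 / Real.log z) ≤ 1 := by
    rw [mul_one_div, div_le_one hlz0]
    calc (m : ℝ) ≤ 2 * a ^ 2 := hm2
      _ ≤ a * a ^ 2 := by gcongr
      _ = a ^ 3 := by ring
      _ ≤ a ^ 24 := hpw _ _ (by norm_num)
      _ ≤ Λ := hΛ24
      _ ≤ _ := hz1
  set y : Fin K → ℝ := fun i => hs (x i) T with hy
  have hyv : ∀ i, y i = 2 * Real.pi * x i / τ := fun i => rfl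
  have hsp0 : ∀ i, d ≤ |y i| := by
    intro i
    have h1 := (hx i).1
    rw [hyv, abs_of_pos (by
      have : 0 < x i := by linarith
      positivity), hd]
    refine div_le_div_of_nonneg_right ?_ hτ0.le
    calc (L : ℝ) / a ^ 3 ≤ L / 1 := by
          gcongr
          exact one_le_pow₀ ha1
      _ ≤ _ := by
          have h0 : 0 < x i := by linarith only [h1, hL0]
          have h2 := mul_nonneg (sub_nonneg.2 hpi3.le) h0.le
          linarith only [h1, h2, h0]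
  have hub0 : ∀ i, 0 ≤ y i ∧ y i ≤ D := by
    intro i
    have h1 := hx i
    have h0 : 0 < x i := by linarith
    refine ⟨by rw [hyv]; positivity, ?_⟩
    rw [hyv, hD]
    refine div_le_div_of_nonneg_right ?_ hτ0.le
    have h2 := mul_nonneg (sub_nonneg.2 Real.pi_lt_d2.le) h0.le
    linarith only [h1.2, h2, h0, hL0]
  have hS := hLS z X m (bb u) (yy y) d D hz3' hzX hd0 (by
    intro i k hik
    induction i using Fin.cases with
    | zero =>
      induction k using Fin.cases with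
      | zero => exact absurd rfl hik
      | succ k =>
        simp only [yy, Fin.cons_zero, Fin.cons_succ, zero_sub, abs_neg]
        exact hsp0 k
    | succ i =>
      induction k using Fin.cases with
      | zero =>
        simp only [yy, Fin.cons_zero, Fin.cons_succ, sub_zero]
        exact hsp0 i
      | succ k =>
        simp only [yy, Fin.cons_succ]
        have h1 := hsep i k (fun h => hik (by rw [h]))
        rw [hyv, hyv, ← sub_div, ← mul_sub, abs_div, abs_mul, abs_of_pos hτ0,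
          abs_of_pos (by positivity : 0 < 2 * Real.pi), hd]
        refine div_le_div_of_nonneg_right ?_ hτ0.le
        have h0 : 0 ≤ |x i - x k| := abs_nonneg _
        have h2 := mul_nonneg (sub_nonneg.2 hpi3.le) h0
        linarith only [h1, h2, h0]) (by
    intro i k
    have h1 : ∀ j, 0 ≤ yy y j ∧ yy y j ≤ D := by
      intro j
      induction j using Fin.cases with
      | zero =>
        simp only [yy, Fin.cons_zero]
        exact ⟨le_refl _, by positivity⟩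
      | succ j =>
        simp only [yy, Fin.cons_succ]
        exact hub0 j
    rw [abs_le]
    constructor <;> linarith [(h1 i).1, (h1 i).2, (h1 k).1, (h1 k).2])
  rw [← hℓ] at hS
  set F0 := Real.log L - Real.log (16 * A) - 12 * Real.log a - 4 * C with hF0
  have hfac : F0 ≤ ℓ - C - C * m * (1 / (d * Real.log z) + D * ℓ + 1 / Real.log z) := by
    have h1 : C * m * (1 / (d * Real.log z) + D * ℓ + 1 / Real.log z) ≤ C * 3 := by
      calc C * m * (1 / (d * Real.log z) + D * ℓ + 1 / Real.log z) =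
          C * (m * (1 / (d * Real.log z)) + m * (D * ℓ) + m * (1 / Real.log z)) := by ring
        _ ≤ C * 3 := mul_le_mul_of_nonneg_left (by linarith) hC
    linarith
  have hl16 : 0 ≤ Real.log (16 * A) := Real.log_nonneg (by linarith)
  have hl2 := Real.log_two_gt_d9
  have hF0' : (1 - δ) * Real.log L - Real.log (16 * A) - 4 * C ≤ F0 := by
    rw [hF0, hla]
    have := mul_le_mul_of_nonneg_right hc12 hlogL0
    linarith only [this]
  have hF0n : 0 ≤ F0 := by
    have := mul_nonneg (by linarith only [hδ] : 0 ≤ 1 - 2 * δ) hlogL0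
    linarith only [this, hF0', hfin, hl2]
  have hSu : F0 * ∑ i, u i ^ 2 ≤ ∑ p ∈ (Finset.Ioc z X).filter Nat.Prime,
      (1 / p : ℝ) * ‖∑ i, (bb u i : ℂ) * cexp (-(I * ((yy y i * Real.log p : ℝ) : ℂ)))‖ ^ 2 := by
    refine le_trans ?_ hS
    have h1 := bb_sq u
    have h2 : 0 ≤ ∑ i, u i ^ 2 := sum_nonneg fun _ _ => sq_nonneg _
    exact mul_le_mul hfac h1 h2 (hF0n.trans hfac)
  -- the variance
  have hlamT : lam ≤ τ := by
    have h1 : lam ≤ 48 * lam / δ := by
      rw [le_div_iff₀ hδ0]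
      have := mul_le_mul_of_nonneg_left hδ hlam0.le
      linarith only [this, hlam0]
    have h2 : a ≤ a ^ 100 := by
      calc a = a ^ 1 := (pow_one a).symm
        _ ≤ a ^ 100 := hpw 1 100 (by norm_num)
    linarith
  have hXl : Real.log X ≤ τ / lam / 2 := by
    refine hX2.trans ?_
    rw [div_div]
    apply div_le_div_of_nonneg_left hτ0.le (by positivity)
    have h1 : lam ≤ 12 * lam / δ := by
      rw [le_div_iff₀ hδ0]
      have := mul_le_mul_of_nonneg_left hδ hlam0.le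
      linarith only [this, hlam0]
    linarith only [h1, hA, hAn, hlam0]
  have h40 : 40 * ((1 + Real.log X) / (τ / lam) + 1 / z) ≤ 5 / 2 * δ := by
    have h1 : lam / τ ≤ δ / 48 := by
      rw [div_le_div_iff₀ hτ0 (by norm_num)]
      rw [div_le_iff₀ hδ0] at hala
      have h2 : a ≤ a ^ 100 := by
        calc a = a ^ 1 := (pow_one a).symm
          _ ≤ a ^ 100 := hpw 1 100 (by norm_num)
      have h3 := mul_le_mul_of_nonneg_right (h2.trans (hL.trans hτL)) hδ0.le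
      linarith only [h3, hala]
    have h2 : Real.log X * (lam / τ) ≤ δ / 48 := by
      calc Real.log X * (lam / τ) ≤ τ / (4 * n) * (lam / τ) := by gcongr
        _ = lam / (4 * n) := by field_simp
        _ ≤ δ / 48 := by
            rw [div_le_div_iff₀ (by positivity) (by norm_num)]
            rw [div_le_iff₀ hδ0] at hA
            have h3 := mul_le_mul_of_nonneg_right hAn hδ0.le
            linarith only [h3, hA]
    have h3 : 1 / (z : ℝ) ≤ δ / 48 := by
      rw [div_le_div_iff₀ hzpos (by norm_num)]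
      rw [div_le_iff₀ hδ0] at hala
      have h3 : a ≤ z := by linarith only [haΛ, hz3]
      have h5 := mul_le_mul_of_nonneg_right h3 hδ0.le
      linarith only [h5, hala, hlam]
    have h4 : (1 + Real.log X) / (τ / lam) = lam / τ + Real.log X * (lam / τ) := by
      field_simp
    rw [h4]
    linarith
  have hV := VC_low (wL L) (τ / lam) δ y u z0 z X hz0z hz3'
    (by rw [le_div_iff₀ hlam0]; linarith) (by linarith) hXl h40
  have hlog2L : Real.log ((2 * L : ℕ) : ℝ) = Real.log 2 + Real.log L := by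
    push_cast
    rw [Real.log_mul (by norm_num) hL0.ne']
  have hlog2L0 : 0 < Real.log ((2 * L : ℕ) : ℝ) := by rw [hlog2L]; linarith
  rw [wL_sq L hlog2L0] at hV
  have hU : 0 ≤ ∑ i, u i ^ 2 := sum_nonneg fun _ _ => sq_nonneg _
  have h5 : (2 * Real.pi ^ 2 / Real.log ((2 * L : ℕ) : ℝ) * ((1 - δ) ^ 2 / Real.pi ^ 2)) *
      (F0 * ∑ i, u i ^ 2) ≤ VC (zU (wL L) (τ / lam) y u z0) X :=
    le_trans (mul_le_mul_of_nonneg_left hSu (by positivity)) hV
  have h6 : 2 * Real.pi ^ 2 / Real.log ((2 * L : ℕ) : ℝ) * ((1 - δ) ^ 2 / Real.pi ^ 2) =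
      2 * ((1 - δ) ^ 2 / Real.log ((2 * L : ℕ) : ℝ)) := by
    field_simp
  rw [h6] at h5
  have h7 : σ ^ 2 ≤ (1 - δ) ^ 2 / Real.log ((2 * L : ℕ) : ℝ) * F0 := by
    rw [div_mul_eq_mul_div, le_div_iff₀ hlog2L0, hlog2L]
    have h8 : (1 - δ) ^ 2 * ((1 - δ) * Real.log L - Real.log (16 * A) - 4 * C) ≤ (1 - δ) ^ 2 * F0 :=
      mul_le_mul_of_nonneg_left hF0' (sq_nonneg _)
    have h9 : (1 - δ) ^ 2 ≤ 1 := pow_le_one₀ (by linarith only [hδ]) (by linarith only [hδ0])
    have h10 : (1 - δ) ^ 2 * (Real.log (16 * A) + 4 * C) ≤ Real.log (16 * A) + 4 * C :=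
      mul_le_of_le_one_left (by linarith only [hl16, hC]) h9
    have h11 : (σ ^ 2 + δ) * Real.log L ≤ (1 - δ) ^ 3 * Real.log L :=
      mul_le_mul_of_nonneg_right hσ hlogL0
    have h12 : σ ^ 2 * Real.log 2 ≤ Real.log 2 := by
      have h13 : (1 - δ) ^ 3 ≤ 1 := pow_le_one₀ (by linarith only [hδ]) (by linarith only [hδ0])
      exact mul_le_of_le_one_left (by linarith only [hl2]) (by linarith only [h13, hσ, hδ0])
    have h14 : (1 - δ) ^ 2 * ((1 - δ) * Real.log L - Real.log (16 * A) - 4 * C) =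
        (1 - δ) ^ 3 * Real.log L - (1 - δ) ^ 2 * (Real.log (16 * A) + 4 * C) := by ring
    rw [h14] at h8
    have h15 : (σ ^ 2 + δ) * Real.log L = σ ^ 2 * Real.log L + δ * Real.log L := by ring
    rw [h15] at h11
    have h16 : σ ^ 2 * (Real.log 2 + Real.log L) = σ ^ 2 * Real.log 2 + σ ^ 2 * Real.log L := by ring
    rw [h16]
    linarith only [h8, h10, h11, h12, hfin]
  calc σ ^ 2 * ∑ i, u i ^ 2 ≤ (1 - δ) ^ 2 / Real.log ((2 * L : ℕ) : ℝ) * F0 * ∑ i, u i ^ 2 :=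
        mul_le_mul_of_nonneg_right h7 hU
    _ = 2 * ((1 - δ) ^ 2 / Real.log ((2 * L : ℕ) : ℝ)) * (F0 * ∑ i, u i ^ 2) / 2 := by ring
    _ ≤ _ := by linarith

theorem t_LOW : S_LOWA := by
  rintro ⟨C, hC, hLS⟩ lam σ θ hlam hσ0 hσ1 hθ
  set δ : ℝ := (1 - σ ^ 2) / 4 with hδ
  have hσ2 : σ ^ 2 < 1 := by nlinarith
  have hδ0 : 0 < δ := by rw [hδ]; linarith
  have hδ4 : δ ≤ 1 / 4 := by rw [hδ]; nlinarith [sq_nonneg σ]
  have hσδ : σ ^ 2 + δ ≤ (1 - δ) ^ 3 := by
    have h1 : σ ^ 2 = 1 - 4 * δ := by rw [hδ]; ring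
    rw [h1]
    have h2 := mul_nonneg (sq_nonneg δ) (by linarith only [hδ4] : 0 ≤ 3 - δ)
    nlinarith only [h2]
  refine ⟨min (min (δ / 12) (θ / 16)) (1 / 100), 12 * lam / δ, by positivity, ?_⟩
  intro c A hc hc2 hA
  have hc12 : 12 * c ≤ δ := by
    have := hc2.trans ((min_le_left _ _).trans (min_le_left _ _))
    linarith
  have hcθ : 16 * c ≤ θ := by
    have := hc2.trans ((min_le_left _ _).trans (min_le_right _ _))
    linarith
  have hc100 : 100 * c ≤ 1 := by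
    have := hc2.trans (min_le_right _ _)
    linarith
  have hlamδ : 0 < 12 * lam / δ := by positivity
  have hA0 : 0 < A := by linarith
  have ev1 : ∀ᶠ L : ℕ in atTop, max (2 * A) (max 2 (48 * lam / δ)) ≤ (L : ℝ) ^ c :=
    ((tendsto_rpow_atTop hc).comp tendsto_natCast_atTop_atTop).eventually_ge_atTop _
  have ev2 : ∀ᶠ L : ℕ in atTop, Real.log L ≤ (L : ℝ) ^ c := by
    have h1 : ∀ᶠ x : ℝ in atTop, ‖Real.log x‖ ≤ 1 * ‖x ^ c‖ :=
      (isLittleO_log_rpow_atTop hc).bound zero_lt_one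
    have h2 := tendsto_natCast_atTop_atTop (R := ℝ) |>.eventually h1
    filter_upwards [h2] with L hL
    rw [one_mul, Real.norm_eq_abs, Real.norm_eq_abs, abs_of_nonneg (by positivity : (0 : ℝ) ≤ (L : ℝ) ^ c)]
      at hL
    exact (le_abs_self _).trans hL
  have ev3 : ∀ᶠ L : ℕ in atTop, (Real.log (16 * A) + Real.log 2 + 4 * C) / δ ≤ Real.log (L : ℝ) :=
    (Real.tendsto_log_atTop.comp tendsto_natCast_atTop_atTop).eventually_ge_atTop _
  obtain ⟨L₀, hL₀⟩ := (ev1.and (ev2.and (ev3.and (eventually_ge_atTop 1)))).exists_forall_of_atTop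
  refine ⟨L₀, ?_⟩
  intro L K n z0 T x hL hT hLT hK hAn hn hz0 hx hsep u
  obtain ⟨e1, e2, e3, e4⟩ := hL₀ L hL
  have hLpos : (0 : ℝ) < L := by exact_mod_cast e4
  have hL1 : (1 : ℝ) ≤ L := by exact_mod_cast e4
  have hpow : ∀ k : ℕ, (L : ℝ) ^ ((k : ℝ) * c) = ((L : ℝ) ^ c) ^ k := by
    intro k
    rw [mul_comm, Real.rpow_mul hLpos.le, Real.rpow_natCast]
  have p2 : (L : ℝ) ^ (2 * c) = ((L : ℝ) ^ c) ^ 2 := by exact_mod_cast hpow 2
  have p4 : (L : ℝ) ^ (4 * c) = ((L : ℝ) ^ c) ^ 4 := by exact_mod_cast hpow 4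
  have p3 : (L : ℝ) ^ (3 * c) = ((L : ℝ) ^ c) ^ 3 := by exact_mod_cast hpow 3
  have p16 : (L : ℝ) ^ (16 * c) = ((L : ℝ) ^ c) ^ 16 := by exact_mod_cast hpow 16
  have p100 : (L : ℝ) ^ (100 * c) = ((L : ℝ) ^ c) ^ 100 := by exact_mod_cast hpow 100
  have p13 : (L : ℝ) ^ (1 - 3 * c) = (L : ℝ) / ((L : ℝ) ^ c) ^ 3 := by
    rw [Real.rpow_sub hLpos, Real.rpow_one, p3]
  have pθ : (L : ℝ) ^ (1 + θ) = L * (L : ℝ) ^ θ := by
    rw [Real.rpow_add hLpos, Real.rpow_one]
  rw [pθ] at hLT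
  rw [p2] at hK
  rw [p4] at hn hz0
  simp only [p13] at hsep
  refine core lam σ δ c C A hlam hδ0 hδ4 hσδ hC hA hc12 hLS L ((L : ℝ) ^ c) ((L : ℝ) ^ θ)
    (le_trans (le_trans (le_max_left _ _) (le_max_right _ _)) e1) ((le_max_left _ _).trans e1)
    (le_trans (le_trans (le_max_right _ _) (le_max_right _ _)) e1) e2 ?_ ?_ ?_ ?_ K n z0 T x hT hLT
    hK hAn hn hz0 hx hsep u
  · rw [← p16]
    exact Real.rpow_le_rpow_of_exponent_le hL1 hcθ
  · rw [← p100]
    calc (L : ℝ) ^ (100 * c) ≤ (L : ℝ) ^ (1 : ℝ) := Real.rpow_le_rpow_of_exponent_le hL1 hc100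
      _ = L := Real.rpow_one _
  · rw [Real.log_rpow hLpos]
  · rw [div_le_iff₀ hδ0] at e3
    linarith

end Pool.Agent.P8H69.EN
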