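import Pool.Agent.P8H60.EN.Stm

/-! Project EN, package LOW: the coefficients. -/

set_option autoImplicit false

namespace Pool.Agent.P8H69.EN

open Finset MeasureTheory Filter Topology Complex
open Pool.Agent.P8H60.LM (GC VC)
open Pool.Agent.Y743.CL (rc XK)
open Pool.Agent.TH850.UV (ggo ggo_low)
open Pool.Agent.P8H60.EN

/-- the size of the coefficient -/
noncomputable def al (l : ℝ) (p : ℕ) : ℝ :=
  l * ggo l p / (Real.sqrt (2 * Real.pi) * Real.pi * Real.sqrt p)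

lemma key (y : ℝ) : ((2 * Real.sin y : ℝ) : ℂ) * cexp (-(I * (y : ℂ))) =
    -I * (1 - cexp (-(I * ((2 * y : ℝ) : ℂ)))) := by
  have h1 : cexp (-(I * ((2 * y : ℝ) : ℂ))) = cexp (-(I * (y : ℂ))) * cexp (-(I * (y : ℂ))) := by
    rw [← Complex.exp_add]
    congr 1
    push_cast
    ring
  have h2 : cexp (-(I * (y : ℂ))) * cexp (I * (y : ℂ)) = 1 := by
    rw [← Complex.exp_add, neg_add_cancel, Complex.exp_zero]
  have h3 : ((2 * Real.sin y : ℝ) : ℂ) = (cexp (-(I * (y : ℂ))) - cexp (I * (y : ℂ))) * I := by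
    push_cast
    rw [Complex.sin]
    have e1 : -(y : ℂ) * I = -(I * (y : ℂ)) := by ring
    have e2 : (y : ℂ) * I = I * (y : ℂ) := by ring
    rw [e1, e2]
    ring
  rw [h1, h3]
  generalize cexp (-(I * (y : ℂ))) = E at h2 ⊢
  generalize cexp (I * (y : ℂ)) = E' at h2 ⊢
  linear_combination -I * h2

lemma rc_al (l h : ℝ) (p : ℕ) (hp : p.Prime) : rc l h p = al l p * (2 * Real.sin (h / 2 * Real.log p)) := by
  have hlog : Real.log p ≠ 0 := (Real.log_pos (by exact_mod_cast hp.one_lt)).ne'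
  have hp0 : (0 : ℝ) < Real.sqrt p := Real.sqrt_pos.2 (by exact_mod_cast hp.pos)
  have hpi := Real.pi_pos
  have h2 : 0 < Real.sqrt (2 * Real.pi) := Real.sqrt_pos.2 (by positivity)
  unfold rc al
  rw [ArithmeticFunction.vonMangoldt_apply_prime hp]
  field_simp

lemma zE_eq (w l h : ℝ) (z0 p : ℕ) (hp : p.Prime) (hz : z0 < p) :
    zE w l h z0 p = -I * ((w * al l p : ℝ) : ℂ) * (1 - cexp (-(I * ((h * Real.log p : ℝ) : ℂ)))) := by
  have hp0 : (p : ℂ) ≠ 0 := by exact_mod_cast hp.ne_zero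
  unfold zE
  rw [if_pos hz, rc_al l h p hp, Complex.cpow_def_of_ne_zero hp0, ← Complex.natCast_log]
  have h1 := key (h / 2 * Real.log p)
  have e1 : (Real.log p : ℂ) * (-((h / 2 : ℝ) : ℂ) * I) = -(I * ((h / 2 * Real.log p : ℝ) : ℂ)) := by
    push_cast
    ring
  have e2 : ((2 * (h / 2 * Real.log p) : ℝ) : ℂ) = ((h * Real.log p : ℝ) : ℂ) := by
    congr 1
    ring
  rw [e2] at h1
  rw [e1]
  calc ((w * (al l p * (2 * Real.sin (h / 2 * Real.log p))) : ℝ) : ℂ) *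
      cexp (-(I * ((h / 2 * Real.log p : ℝ) : ℂ))) = ((w * al l p : ℝ) : ℂ) *
      (((2 * Real.sin (h / 2 * Real.log p) : ℝ) : ℂ) * cexp (-(I * ((h / 2 * Real.log p : ℝ) : ℂ)))) := by
        push_cast; ring
    _ = _ := by rw [h1]; ring

/-- the coefficients of the trigonometric sum -/
noncomputable def bb {K : ℕ} (u : Fin K → ℝ) : Fin (K + 1) → ℝ := Fin.cons (∑ i, u i) fun i => -u i

/-- the frequencies of the trigonometric sum -/
noncomputable def yy {K : ℕ} (h : Fin K → ℝ) : Fin (K + 1) → ℝ := Fin.cons 0 h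

lemma zU_eq {K : ℕ} (w l : ℝ) (h u : Fin K → ℝ) (z0 p : ℕ) (hp : p.Prime) (hz : z0 < p) :
    zU w l h u z0 p = -I * ((w * al l p : ℝ) : ℂ) *
      ∑ i, (bb u i : ℂ) * cexp (-(I * ((yy h i * Real.log p : ℝ) : ℂ))) := by
  unfold zU
  rw [Fin.sum_univ_succ]
  simp only [bb, yy, Fin.cons_zero, Fin.cons_succ, zero_mul, Complex.ofReal_zero, mul_zero, neg_zero,
    Complex.exp_zero, mul_one]
  have h1 : ∀ i : Fin K, (u i : ℂ) * zE w l (h i) z0 p = -I * ((w * al l p : ℝ) : ℂ) *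
      ((u i : ℂ) - (u i : ℂ) * cexp (-(I * ((h i * Real.log p : ℝ) : ℂ)))) := by
    intro i
    rw [zE_eq w l (h i) z0 p hp hz]
    ring
  simp only [h1]
  rw [← mul_sum, sum_sub_distrib]
  congr 1
  push_cast
  rw [sub_eq_add_neg, ← sum_neg_distrib]
  congr 1
  refine sum_congr rfl fun i _ => ?_
  ring

lemma zU_norm {K : ℕ} (w l : ℝ) (h u : Fin K → ℝ) (z0 p : ℕ) (hp : p.Prime) (hz : z0 < p) :
    ‖zU w l h u z0 p‖ ^ 2 = (w * al l p) ^ 2 *
      ‖∑ i, (bb u i : ℂ) * cexp (-(I * ((yy h i * Real.log p : ℝ) : ℂ)))‖ ^ 2 := by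
  rw [zU_eq w l h u z0 p hp hz, norm_mul, norm_mul, norm_neg, Complex.norm_I, one_mul,
    Complex.norm_real, mul_pow, Real.norm_eq_abs, sq_abs]

lemma bb_sq {K : ℕ} (u : Fin K → ℝ) : ∑ i, u i ^ 2 ≤ ∑ i, bb u i ^ 2 := by
  rw [Fin.sum_univ_succ]
  simp only [bb, Fin.cons_zero, Fin.cons_succ]
  have : ∀ i, (-u i) ^ 2 = u i ^ 2 := fun i => by ring
  simp only [this]
  nlinarith [sq_nonneg (∑ i, u i)]

lemma al_low {l δ : ℝ} (hl : 1 ≤ l) (hδ : δ ≤ 1) (p : ℕ) (hp : p.Prime)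
    (hnl : Real.log p ≤ l / 2) (h40 : 40 * ((1 + Real.log p) / l + 1 / p) ≤ 5 / 2 * δ) :
    (1 - δ) ^ 2 / Real.pi ^ 2 * (1 / p) ≤ al l p ^ 2 := by
  have hpi := Real.pi_pos
  have hp0 : (0 : ℝ) < p := by exact_mod_cast hp.pos
  have h1 := ggo_low hl p hp.one_lt.le hnl
  have hs0 : 0 < Real.sqrt (2 * Real.pi) := Real.sqrt_pos.2 (by positivity)
  have hs : 5 / 2 ≤ Real.sqrt (2 * Real.pi) := by
    apply Real.le_sqrt_of_sq_le
    have := Real.pi_gt_d2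
    norm_num
    linarith
  have hlp : 0 ≤ Real.log p := Real.log_nonneg (by exact_mod_cast hp.one_lt.le)
  have hδ0 : 0 ≤ δ := by
    have : 0 ≤ 40 * ((1 + Real.log p) / l + 1 / p) := by positivity
    linarith
  have h2 : (1 - δ) * Real.sqrt (2 * Real.pi) ≤ l * ggo l p := by
    nlinarith
  have h3 : ((1 - δ) * Real.sqrt (2 * Real.pi)) ^ 2 ≤ (l * ggo l p) ^ 2 :=
    pow_le_pow_left₀ (by nlinarith) h2 2
  unfold al
  rw [div_pow, mul_pow (Real.sqrt (2 * Real.pi) * Real.pi), mul_pow (Real.sqrt (2 * Real.pi)),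
    Real.sq_sqrt hp0.le, le_div_iff₀ (by positivity)]
  refine le_trans (le_of_eq ?_) h3
  rw [mul_pow]
  field_simp

/-- the lower bound of the variance -/
lemma VC_low {K : ℕ} (w l δ : ℝ) (h u : Fin K → ℝ) (z0 z X : ℕ) (hz : z0 ≤ z) (hz1 : 3 ≤ z)
    (hl : 1 ≤ l) (hδ : δ ≤ 1) (hX : Real.log X ≤ l / 2)
    (h40 : 40 * ((1 + Real.log X) / l + 1 / z) ≤ 5 / 2 * δ) :
    w ^ 2 * ((1 - δ) ^ 2 / Real.pi ^ 2) * ∑ p ∈ (Finset.Ioc z X).filter Nat.Prime,
      (1 / p : ℝ) * ‖∑ i, (bb u i : ℂ) * cexp (-(I * ((yy h i * Real.log p : ℝ) : ℂ)))‖ ^ 2 ≤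
      VC (zU w l h u z0) X := by
  unfold VC
  rw [mul_sum]
  have hsub : (Finset.Ioc z X).filter Nat.Prime ⊆ (Finset.Icc 1 X).filter Nat.Prime := by
    intro p hp
    simp only [Finset.mem_filter, Finset.mem_Ioc, Finset.mem_Icc] at hp ⊢
    exact ⟨⟨by omega, hp.1.2⟩, hp.2⟩
  refine le_trans (sum_le_sum fun p hp => ?_)
    (sum_le_sum_of_subset_of_nonneg hsub fun _ _ _ => sq_nonneg _)
  simp only [Finset.mem_filter, Finset.mem_Ioc] at hp
  obtain ⟨⟨hp1, hp2⟩, hpp⟩ := hp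
  have hp0 : (0 : ℝ) < p := by exact_mod_cast hpp.pos
  have hz0' : (0 : ℝ) < z := by exact_mod_cast (by omega : 0 < z)
  have hlX : Real.log p ≤ Real.log X := Real.log_le_log hp0 (by exact_mod_cast hp2)
  rw [zU_norm w l h u z0 p hpp (by omega), mul_pow]
  have h1 : (1 - δ) ^ 2 / Real.pi ^ 2 * (1 / p) ≤ al l p ^ 2 := by
    refine al_low hl hδ p hpp (by linarith) ?_
    refine le_trans ?_ h40
    have : (1 : ℝ) / p ≤ 1 / z := one_div_le_one_div_of_le hz0' (by exact_mod_cast hp1.le)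
    have hl0 : 0 < l := by linarith
    gcongr
  have h2 := mul_le_mul_of_nonneg_left h1 (sq_nonneg w)
  have h3 := mul_le_mul_of_nonneg_right h2
    (sq_nonneg ‖∑ i, (bb u i : ℂ) * cexp (-(I * ((yy h i * Real.log p : ℝ) : ℂ)))‖)
  refine le_trans (le_of_eq ?_) h3
  ring

end Pool.Agent.P8H69.EN
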